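import Pool.Agent.H37.RCQ.TE

/-!
# Project RCQ, modules QT and QE: 4-cycles
-/

set_option autoImplicit false

namespace Pool.Agent.H37.RCQ.QQ

open Pool.Agent.H39.RC Pool.Agent.H6.RCQ
open Classical

variable {V : Type}

/-- number of neighbours in a set -/
noncomputable def nb (G : SimpleGraph V) (A : Finset V) (s : V) : ℕ :=
  (A.filter (fun i => G.Adj s i)).card

theorem jn_symm {G : SimpleGraph V} {X : Set V} {r s : V} (h : Jn G X r s) : Jn G X s r := by
  obtain ⟨Z, h1, h2, h3, h4⟩ := h
  exact ⟨Z, h2, h1, h3, h4⟩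

/-- the data of a 4-cycle -/
structure C4 (G : SimpleGraph V) (R : Finset V) (x h a b : V) : Prop where
  xh : x ≠ h
  ab : a ≠ b
  ma : a ∈ R
  mb : b ∈ R
  xa : G.Adj x a
  xb : G.Adj x b
  ha : G.Adj h a
  hb : G.Adj h b

theorem card_RS {G : SimpleGraph V} {R S : Finset V} {x h a b : V} (c : C4 G R x h a b)
    (hS : S = {x, h, a, b}) : (R ∩ S).card = 2 + ir R x + ir R h := by
  have e : R ∩ S = S.filter (fun t => t ∈ R) := by
    ext t
    simp [and_comm]
  rw [e, Finset.card_filter, hS, Finset.sum_insert, Finset.sum_insert, Finset.sum_insert,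
    Finset.sum_singleton, if_pos c.ma, if_pos c.mb]
  · unfold ir
    omega
  · simp [c.ab]
  · simp [c.ha.ne, c.hb.ne]
  · simp [c.xh, c.xa.ne, c.xb.ne]

theorem nums (hGA : GAStmt) (hGB : GBStmt) {G : SimpleGraph V} {R S : Finset V} {x h a b : V}
    {d : ℕ} (c : C4 G R x h a b) (hS : S = {x, h, a, b}) (lf : Lf G R) (deg : DegLe G R d)
    {I O : Finset V} (hI : I ⊆ R \ S) (hO : O ⊆ R \ S) (hD : Disjoint I O)
    (hsep : ∀ i ∈ I, ∀ o ∈ O, ¬ Jn G ↑S i o) :
    I.card * O.card ≤ nb G I x * nb G O x + nb G I h * nb G O h + nb G I a * nb G O a +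
      nb G I b * nb G O b ∧
    nb G I x + nb G O x ≤ d - 2 ∧ nb G I h + nb G O h ≤ d - 2 ∧
    nb G I a + nb G O a ≤ d - (ir R x + ir R h) ∧ nb G I b + nb G O b ≤ d - (ir R x + ir R h) := by
  have hA := hGA V G R S I O lf hI hO hsep
  rw [hS, Finset.sum_insert (by simp [c.xh, c.xa.ne, c.xb.ne]),
    Finset.sum_insert (by simp [c.ha.ne, c.hb.ne]), Finset.sum_insert (by simp [c.ab]),
    Finset.sum_singleton] at hA
  have Sx : x ∈ S := by simp [hS]
  have Sh : h ∈ S := by simp [hS]
  have Sa : a ∈ S := by simp [hS]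
  have Sb : b ∈ S := by simp [hS]
  have hT : (({x, h} : Finset V).filter (fun t => t ∈ R)).card = ir R x + ir R h := by
    rw [Finset.card_filter, Finset.sum_insert (by simp [c.xh]), Finset.sum_singleton]
    rfl
  refine ⟨?_, ?_, ?_, ?_, ?_⟩
  · unfold nb
    linarith
  · exact TE.cap hGB Sx hI hO hD (deg x) {a, b} (d - 2) (by rw [Finset.card_pair c.ab]; omega) (by
      intro t ht
      simp only [Finset.mem_insert, Finset.mem_singleton] at ht
      rcases ht with rfl | rfl
      · exact ⟨c.ma, Sa, c.xa⟩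
      · exact ⟨c.mb, Sb, c.xb⟩)
  · exact TE.cap hGB Sh hI hO hD (deg h) {a, b} (d - 2) (by rw [Finset.card_pair c.ab]; omega) (by
      intro t ht
      simp only [Finset.mem_insert, Finset.mem_singleton] at ht
      rcases ht with rfl | rfl
      · exact ⟨c.ma, Sa, c.ha⟩
      · exact ⟨c.mb, Sb, c.hb⟩)
  · exact TE.cap hGB Sa hI hO hD (deg a) (({x, h} : Finset V).filter (fun t => t ∈ R))
      (d - (ir R x + ir R h)) (by rw [hT]; omega) (by
      intro t ht
      simp only [Finset.mem_filter, Finset.mem_insert, Finset.mem_singleton] at ht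
      obtain ⟨rfl | rfl, h2⟩ := ht
      · exact ⟨h2, Sx, c.xa.symm⟩
      · exact ⟨h2, Sh, c.ha.symm⟩)
  · exact TE.cap hGB Sb hI hO hD (deg b) (({x, h} : Finset V).filter (fun t => t ∈ R))
      (d - (ir R x + ir R h)) (by rw [hT]; omega) (by
      intro t ht
      simp only [Finset.mem_filter, Finset.mem_insert, Finset.mem_singleton] at ht
      obtain ⟨rfl | rfl, h2⟩ := ht
      · exact ⟨h2, Sx, c.xb.symm⟩
      · exact ⟨h2, Sh, c.hb.symm⟩)

theorem nb_le (G : SimpleGraph V) (A : Finset V) (s : V) : nb G A s ≤ A.card :=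
  Finset.card_filter_le _ _

theorem ir_le (R : Finset V) (x : V) : ir R x ≤ 1 := by
  unfold ir
  split_ifs <;> omega

theorem r4 {i o : ℕ} (h : i + o ≤ 6) (hi : i ≤ 2) : i * o ≤ 8 := by
  interval_cases i <;> omega

theorem e4 {i o : ℕ} (h : i + o ≤ 4) (h4 : 4 ≤ i * o) : i = 2 ∧ o = 2 := by
  have : i ≤ 4 := by omega
  interval_cases i <;> omega

theorem big3 {m n k : ℕ} (h : m + n = k) (hm : 3 ≤ m) (hn : 3 ≤ n) : 3 * (k - 3) ≤ m * n := by
  obtain ⟨m', rfl⟩ := Nat.exists_eq_add_of_le hm
  obtain ⟨n', rfl⟩ := Nat.exists_eq_add_of_le hn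
  subst h
  have : 3 + m' + (3 + n') - 3 = m' + n' + 3 := by omega
  rw [this]
  nlinarith [Nat.zero_le (m' * n')]

/-- the case of a small side with exactly two elements (degrees at most six) -/
theorem no2 (hGA : GAStmt) (hGB : GBStmt) {G : SimpleGraph V} {R S : Finset V} {x h a b : V}
    (c : C4 G R x h a b) (hS : S = {x, h, a, b}) (s6 : S6 G R 6)
    {I O : Finset V} (hI : I ⊆ R \ S) (hO : O ⊆ R \ S) (hD : Disjoint I O)
    (hsep : ∀ i ∈ I, ∀ o ∈ O, ¬ Jn G ↑S i o) (hU : I ∪ O = R \ S) (h2 : I.card = 2) : False := by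
  obtain ⟨hA, cx, ch, ca, cb⟩ := nums hGA hGB c hS s6.lf s6.deg hI hO hD hsep
  have hk := card_RS c hS
  have hcard : I.card + O.card = (R \ S).card := by rw [← hU, Finset.card_union_of_disjoint hD]
  have hc16 : (R ∩ S).card + (R \ S).card = 16 := by
    rw [Finset.card_inter_add_card_sdiff, s6.card]
  have lx := nb_le G I x
  have lh := nb_le G I h
  have la := nb_le G I a
  have lb := nb_le G I b
  rw [h2] at lx lh la lb hA hcard
  have kx := ir_le R x
  have kh := ir_le R h
  have gx := TE.q4 cx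
  have gh := TE.q4 ch
  by_cases k0 : ir R x + ir R h = 0
  · rw [k0] at ca cb
    have ga := r4 ca la
    have gb := r4 cb lb
    have ex := e4 cx (by omega)
    have eh := e4 ch (by omega)
    have fx : I.filter (fun i => G.Adj x i) = I := Finset.eq_of_subset_of_card_le
      (Finset.filter_subset _ _) (by have := ex.1; unfold nb at this; omega)
    have fh : I.filter (fun i => G.Adj h i) = I := Finset.eq_of_subset_of_card_le
      (Finset.filter_subset _ _) (by have := eh.1; unfold nb at this; omega)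
    have hcc := s6.cc x h c.xh
    have hsub : I ∪ {a, b} ⊆ CC G R x h := by
      intro t ht
      rw [Finset.mem_union] at ht
      rcases ht with ht | ht
      · have h1 : t ∈ R := (Finset.mem_sdiff.1 (hI ht)).1
        rw [← fx] at ht
        have h2 : G.Adj x t := (Finset.mem_filter.1 ht).2
        rw [fx, ← fh] at ht
        have h3 : G.Adj h t := (Finset.mem_filter.1 ht).2
        simp [CC, h1, h2, h3]
      · simp only [Finset.mem_insert, Finset.mem_singleton] at ht
        rcases ht with rfl | rfl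
        · simp [CC, c.ma, c.xa, c.ha]
        · simp [CC, c.mb, c.xb, c.hb]
    have hdis : Disjoint I {a, b} := by
      rw [Finset.disjoint_left]
      intro t ht ht'
      have h1 : t ∉ S := (Finset.mem_sdiff.1 (hI ht)).2
      apply h1
      simp only [Finset.mem_insert, Finset.mem_singleton] at ht'
      rw [hS]
      rcases ht' with rfl | rfl <;> simp
    have := Finset.card_le_card hsub
    rw [Finset.card_union_of_disjoint hdis, Finset.card_pair c.ab] at this
    omega
  · have ca' : nb G I a + nb G O a ≤ 5 := by omega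
    have cb' : nb G I b + nb G O b ≤ 5 := by omega
    have ga := TE.q5 ca'
    have gb := TE.q5 cb'
    rcases Nat.lt_or_ge (ir R x + ir R h) 2 with k1 | k1
    · omega
    · have ca' : nb G I a + nb G O a ≤ 4 := by omega
      have cb' : nb G I b + nb G O b ≤ 4 := by omega
      have ga := TE.q4 ca'
      have gb := TE.q4 cb'
      omega

theorem no22 (hGA : GAStmt) (hGB : GBStmt) {G : SimpleGraph V} {R S : Finset V} {x h a b : V}
    (c : C4 G R x h a b) (hS : S = {x, h, a, b}) (s6 : S6 G R 6)
    {I O : Finset V} (hI : I ⊆ R \ S) (hO : O ⊆ R \ S) (hD : Disjoint I O)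
    (hsep : ∀ i ∈ I, ∀ o ∈ O, ¬ Jn G ↑S i o) (hU : I ∪ O = R \ S) (h2 : 2 ≤ I.card)
    (h2' : 2 ≤ O.card) : False := by
  by_cases e1 : I.card = 2
  · exact no2 hGA hGB c hS s6 hI hO hD hsep hU e1
  by_cases e2 : O.card = 2
  · exact no2 hGA hGB c hS s6 hO hI hD.symm (fun i hi o ho hj => hsep o ho i hi (jn_symm hj))
      (by rw [Finset.union_comm]; exact hU) e2
  obtain ⟨hA, cx, ch, ca, cb⟩ := nums hGA hGB c hS s6.lf s6.deg hI hO hD hsep
  have hk := card_RS c hS
  have hcard : I.card + O.card = (R \ S).card := by rw [← hU, Finset.card_union_of_disjoint hD]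
  have hc16 : (R ∩ S).card + (R \ S).card = 16 := by
    rw [Finset.card_inter_add_card_sdiff, s6.card]
  have kx := ir_le R x
  have kh := ir_le R h
  have gx := TE.q4 cx
  have gh := TE.q4 ch
  have hb := big3 hcard (by omega) (by omega)
  rcases Nat.lt_or_ge (ir R x + ir R h) 1 with k1 | k1
  · have ga := TE.q6 (i := nb G I a) (o := nb G O a) (by omega)
    have gb := TE.q6 (i := nb G I b) (o := nb G O b) (by omega)
    omega
  rcases Nat.lt_or_ge (ir R x + ir R h) 2 with k2 | k2
  · have ga := TE.q5 (i := nb G I a) (o := nb G O a) (by omega)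
    have gb := TE.q5 (i := nb G I b) (o := nb G O b) (by omega)
    omega
  · have ga := TE.q4 (i := nb G I a) (o := nb G O a) (by omega)
    have gb := TE.q4 (i := nb G I b) (o := nb G O b) (by omega)
    omega

theorem coe_S {S : Finset V} {x h a b : V} (hS : S = {x, h, a, b}) :
    (↑S : Set V) = Q4 x h a b := by
  simp [hS, Q4]

theorem mem_S {S : Finset V} {x h a b t : V} (hS : S = {x, h, a, b}) :
    t ∈ S ↔ t ∈ Q4 x h a b := by
  rw [← coe_S hS]
  simp

theorem nb_single {G : SimpleGraph V} {i s : V} : nb G {i} s = if G.Adj s i then 1 else 0 := by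
  unfold nb
  rw [Finset.filter_singleton]
  split_ifs <;> simp

theorem zm {P : Prop} [Decidable P] {o k : ℕ} (h : (if P then 1 else 0) + o ≤ k + 1) :
    (if P then 1 else 0) * o ≤ (if P then k else 0) := by
  split_ifs at * <;> omega

theorem qt (hGA : GAStmt) (hGB : GBStmt) (hGT : GTStmt) : QTStmt := by
  intro V G R x h a b s6 nxh nab ma mb xa xb ha hb
  have c : C4 G R x h a b := ⟨nxh, nab, ma, mb, xa, xb, ha, hb⟩
  obtain ⟨S, hS⟩ : ∃ S : Finset V, S = {x, h, a, b} := ⟨_, rfl⟩
  have hcoe := coe_S hS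
  have hk := card_RS c hS
  have kx := ir_le R x
  have kh := ir_le R h
  have hc16 : (R ∩ S).card + (R \ S).card = 16 := by
    rw [Finset.card_inter_add_card_sdiff, s6.card]
  -- the part of an isolated vertex
  have key2 : ∀ i, Iso G R x h a b i → G.Adj a i ∧ G.Adj b i ∧ (G.Adj x i ∨ G.Adj h i) ∧
    ((x ∈ R ∨ h ∈ R) → G.Adj x i ∧ G.Adj h i) := by
    rintro i ⟨hiR, hiQ, hiso⟩
    have hiS : i ∈ R \ S := by
      rw [Finset.mem_sdiff, mem_S hS]
      exact ⟨hiR, hiQ⟩
    have hI : ({i} : Finset V) ⊆ R \ S := by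
      intro t ht
      rw [Finset.mem_singleton] at ht
      rw [ht]; exact hiS
    have hO : (R \ S).erase i ⊆ R \ S := Finset.erase_subset _ _
    have hD : Disjoint ({i} : Finset V) ((R \ S).erase i) := by
      rw [Finset.disjoint_singleton_left]
      simp
    have hsep : ∀ j ∈ ({i} : Finset V), ∀ o ∈ (R \ S).erase i, ¬ Jn G ↑S j o := by
      intro j hj o ho
      rw [Finset.mem_singleton] at hj
      subst hj
      rw [Finset.mem_erase, Finset.mem_sdiff, mem_S hS] at ho
      rw [hcoe]
      exact hiso o ho.2.1 ho.2.2 ho.1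
    obtain ⟨hA, cx, ch, ca, cb⟩ := nums hGA hGB c hS s6.lf s6.deg hI hO hD hsep
    have hcard := Finset.card_erase_of_mem hiS
    rw [hcard, Finset.card_singleton, one_mul] at hA
    simp only [nb_single] at hA cx ch ca cb
    have gx := zm (k := 3) (by simpa using cx)
    have gh := zm (k := 3) (by simpa using ch)
    have ga := zm (k := 5 - (ir R x + ir R h)) (le_trans ca (by omega))
    have gb := zm (k := 5 - (ir R x + ir R h)) (le_trans cb (by omega))
    have key : (if G.Adj x i then 3 else 0) + (if G.Adj h i then 3 else 0) +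
      (if G.Adj a i then 5 - (ir R x + ir R h) else 0) +
      (if G.Adj b i then 5 - (ir R x + ir R h) else 0) + (ir R x + ir R h) ≥ 13 := by omega
    have t1 : (if G.Adj x i then 3 else 0) ≤ 3 := by split_ifs <;> omega
    have t2 : (if G.Adj h i then 3 else 0) ≤ 3 := by split_ifs <;> omega
    have t3 : (if G.Adj a i then 5 - (ir R x + ir R h) else 0) ≤ 5 - (ir R x + ir R h) := by
      split_ifs <;> omega
    have t4 : (if G.Adj b i then 5 - (ir R x + ir R h) else 0) ≤ 5 - (ir R x + ir R h) := by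
      split_ifs <;> omega
    refine ⟨?_, ?_, ?_, ?_⟩
    · by_contra hh
      rw [if_neg hh] at key
      omega
    · by_contra hh
      rw [if_neg hh] at key
      omega
    · by_contra hh
      push Not at hh
      rw [if_neg hh.1, if_neg hh.2] at key
      omega
    · intro hR
      have hpos : 1 ≤ ir R x + ir R h := by
        unfold ir
        rcases hR with hR | hR
        · rw [if_pos hR]; omega
        · rw [if_pos hR]; omega
      constructor
      · by_contra hh
        rw [if_neg hh] at key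
        omega
      · by_contra hh
        rw [if_neg hh] at key
        omega
  refine ⟨?_, key2, ?_⟩
  · intro i hi o ho o' ho' iQ oQ oQ' noo jo jo'
    have hiS : i ∈ R \ S := by
      rw [Finset.mem_sdiff, mem_S hS]
      exact ⟨hi, iQ⟩
    have hoS : o ∈ R \ S := by
      rw [Finset.mem_sdiff, mem_S hS]
      exact ⟨ho, oQ⟩
    have hoS' : o' ∈ R \ S := by
      rw [Finset.mem_sdiff, mem_S hS]
      exact ⟨ho', oQ'⟩
    obtain ⟨I, O, hU, hD, hiI, hIJ, hsep⟩ := hGT V G R S i hiS
    have hIs : I ⊆ R \ S := hU ▸ Finset.subset_union_left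
    have hOs : O ⊆ R \ S := hU ▸ Finset.subset_union_right
    have inO : ∀ o ∈ R \ S, ¬ Jn G (Q4 x h a b) i o → o ∈ O := by
      intro o ho hj
      have h1 : o ∈ I ∪ O := by rw [hU]; exact ho
      rcases Finset.mem_union.1 h1 with h | h
      · exact absurd ((hIJ o ho).1 h) (by rw [hcoe]; exact hj)
      · exact h
    have m1 := inO o hoS jo
    have m2 := inO o' hoS' jo'
    have hO2 : 2 ≤ O.card := by
      rw [← Finset.card_pair noo]
      apply Finset.card_le_card
      intro t ht
      simp only [Finset.mem_insert, Finset.mem_singleton] at ht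
      rcases ht with rfl | rfl <;> assumption
    have hI1 : I.card < 2 := by
      by_contra hcon
      exact no22 hGA hGB c hS s6 hIs hOs hD hsep hU (by omega) hO2
    have hIeq : ∀ t ∈ I, t = i := by
      have := Finset.card_le_one.1 (by omega : I.card ≤ 1)
      intro t ht
      exact this t ht i hiI
    refine ⟨hi, iQ, ?_⟩
    intro r hr rQ nri hj
    have hrS : r ∈ R \ S := by
      rw [Finset.mem_sdiff, mem_S hS]
      exact ⟨hr, rQ⟩
    have : r ∈ I := (hIJ r hrS).2 (by rw [hcoe]; exact hj)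
    exact nri (hIeq r this)
  · intro i i' hiso hiso'
    by_contra hne
    obtain ⟨hiR, hiQ, hi3⟩ := hiso
    obtain ⟨hiR', hiQ', hi3'⟩ := hiso'
    have hiS : i ∈ R \ S := by
      rw [Finset.mem_sdiff, mem_S hS]
      exact ⟨hiR, hiQ⟩
    have hiS' : i' ∈ R \ S := by
      rw [Finset.mem_sdiff, mem_S hS]
      exact ⟨hiR', hiQ'⟩
    have hI : ({i, i'} : Finset V) ⊆ R \ S := by
      intro t ht
      simp only [Finset.mem_insert, Finset.mem_singleton] at ht
      rcases ht with rfl | rfl <;> assumption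
    have hO : (R \ S) \ {i, i'} ⊆ R \ S := Finset.sdiff_subset
    have hD : Disjoint ({i, i'} : Finset V) ((R \ S) \ {i, i'}) := Finset.disjoint_sdiff
    have hU : ({i, i'} : Finset V) ∪ ((R \ S) \ {i, i'}) = R \ S :=
      Finset.union_sdiff_of_subset hI
    have hsep : ∀ j ∈ ({i, i'} : Finset V), ∀ o ∈ (R \ S) \ {i, i'}, ¬ Jn G ↑S j o := by
      intro j hj o ho
      rw [Finset.mem_sdiff, Finset.mem_sdiff, mem_S hS] at ho
      have ho2 := ho.2
      simp only [Finset.mem_insert, Finset.mem_singleton, not_or] at hj ho2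
      rw [hcoe]
      rcases hj with rfl | rfl
      · exact hi3 o ho.1.1 ho.1.2 ho2.1
      · exact hi3' o ho.1.1 ho.1.2 ho2.2
    have hcard : ({i, i'} : Finset V).card + ((R \ S) \ {i, i'}).card = (R \ S).card := by
      rw [← Finset.card_union_of_disjoint hD, hU]
    rw [Finset.card_pair hne] at hcard
    exact no22 hGA hGB c hS s6 hI hO hD hsep hU (by rw [Finset.card_pair hne]) (by omega)

theorem qe (hGA : GAStmt) (hGB : GBStmt) (hGT : GTStmt) : QEStmt := by
  intro V G R x h a b s6 nxh nab ma mb xa xb ha hb r hr s hs rQ sQ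
  have c : C4 G R x h a b := ⟨nxh, nab, ma, mb, xa, xb, ha, hb⟩
  obtain ⟨S, hS⟩ : ∃ S : Finset V, S = {x, h, a, b} := ⟨_, rfl⟩
  have hcoe := coe_S hS
  have hk := card_RS c hS
  have kx := ir_le R x
  have kh := ir_le R h
  have hc16 : (R ∩ S).card + (R \ S).card = 16 := by
    rw [Finset.card_inter_add_card_sdiff, s6.card]
  by_contra hJ
  have hrS : r ∈ R \ S := by
    rw [Finset.mem_sdiff, mem_S hS]
    exact ⟨hr, rQ⟩
  have hsS : s ∈ R \ S := by
    rw [Finset.mem_sdiff, mem_S hS]
    exact ⟨hs, sQ⟩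
  obtain ⟨I, O, hU, hD, hrI, hIJ, hsep⟩ := hGT V G R S r hrS
  have hsO : s ∈ O := by
    have h1 : s ∈ I ∪ O := by rw [hU]; exact hsS
    rcases Finset.mem_union.1 h1 with h | h
    · exact absurd ((hIJ s hsS).1 h) (by rw [hcoe]; exact hJ)
    · exact h
  have hIs : I ⊆ R \ S := hU ▸ Finset.subset_union_left
  have hOs : O ⊆ R \ S := hU ▸ Finset.subset_union_right
  have hcard : I.card + O.card = (R \ S).card := by rw [← hU, Finset.card_union_of_disjoint hD]
  have hIp : 1 ≤ I.card := Finset.card_pos.2 ⟨r, hrI⟩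
  have hOp : 1 ≤ O.card := Finset.card_pos.2 ⟨s, hsO⟩
  obtain ⟨hA, cx, ch, ca, cb⟩ := nums hGA hGB c hS s6.lf s6.deg hIs hOs hD hsep
  norm_num at cx ch
  have gx := TE.q3 cx
  have gh := TE.q3 ch
  have lx := nb_le G I x
  have lh := nb_le G I h
  have la := nb_le G I a
  have lb := nb_le G I b
  have lx' := nb_le G O x
  have lh' := nb_le G O h
  have la' := nb_le G O a
  have lb' := nb_le G O b
  rcases Nat.lt_or_ge I.card 2 with h1 | h1
  · have e1 : I.card = 1 := by omega
    rw [e1] at lx lh la lb hA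
    have := TE.p1 cx lx
    have := TE.p1 ch lh
    have := TE.p1 ca la
    have := TE.p1 cb lb
    omega
  rcases Nat.lt_or_ge O.card 2 with h2 | h2
  · have e1 : O.card = 1 := by omega
    rw [e1] at lx' lh' la' lb' hA
    have := TE.p1' cx lx'
    have := TE.p1' ch lh'
    have := TE.p1' ca la'
    have := TE.p1' cb lb'
    omega
  · have h3 := TE.big hcard h1 h2
    rcases Nat.lt_or_ge (ir R x + ir R h) 1 with k1 | k1
    · have ga := TE.q5 (i := nb G I a) (o := nb G O a) (by omega)
      have gb := TE.q5 (i := nb G I b) (o := nb G O b) (by omega)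
      omega
    rcases Nat.lt_or_ge (ir R x + ir R h) 2 with k2 | k2
    · have ga := TE.q4 (i := nb G I a) (o := nb G O a) (by omega)
      have gb := TE.q4 (i := nb G I b) (o := nb G O b) (by omega)
      omega
    · have ga := TE.q3 (i := nb G I a) (o := nb G O a) (by omega)
      have gb := TE.q3 (i := nb G I b) (o := nb G O b) (by omega)
      omega

end Pool.Agent.H37.RCQ.QQ
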