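import Pool.Agent.H6.RCQ.Stmts4

/-!
# Project RCQ, module TE: triangles do not separate `R`
-/

set_option autoImplicit false

namespace Pool.Agent.H37.RCQ.TE

open Pool.Agent.H39.RC Pool.Agent.H6.RCQ
open Classical

theorem p1 {i o c : ℕ} (h : i + o ≤ c) (hi : i ≤ 1) : i * o ≤ c - 1 := by
  interval_cases i <;> omega

theorem p1' {i o c : ℕ} (h : i + o ≤ c) (ho : o ≤ 1) : i * o ≤ c - 1 := by
  rw [mul_comm]; exact p1 (by omega) ho

theorem q3 {i o : ℕ} (h : i + o ≤ 3) : i * o ≤ 2 := by
  have : i ≤ 3 := by omega
  interval_cases i <;> omega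

theorem q4 {i o : ℕ} (h : i + o ≤ 4) : i * o ≤ 4 := by
  have : i ≤ 4 := by omega
  interval_cases i <;> omega

theorem q5 {i o : ℕ} (h : i + o ≤ 5) : i * o ≤ 6 := by
  have : i ≤ 5 := by omega
  interval_cases i <;> omega

theorem q6 {i o : ℕ} (h : i + o ≤ 6) : i * o ≤ 9 := by
  have : i ≤ 6 := by omega
  interval_cases i <;> omega

theorem big {m n k : ℕ} (h : m + n = k) (hm : 2 ≤ m) (hn : 2 ≤ n) : 2 * (k - 2) ≤ m * n := by
  obtain ⟨m', rfl⟩ := Nat.exists_eq_add_of_le hm
  obtain ⟨n', rfl⟩ := Nat.exists_eq_add_of_le hn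
  subst h
  have : 2 + m' + (2 + n') - 2 = m' + n' + 2 := by omega
  rw [this]
  nlinarith [Nat.zero_le (m' * n')]

/-- the caps at the vertices of a separator -/
theorem cap (hGB : GBStmt) {V : Type} {G : SimpleGraph V} {R S I O : Finset V} {s : V} {d : ℕ}
    (hs : s ∈ S) (hI : I ⊆ R \ S) (hO : O ⊆ R \ S) (hD : Disjoint I O) (hd : (D G R s).card ≤ d)
    (T : Finset V) (c : ℕ) (hc : d ≤ c + T.card) (hT : ∀ t ∈ T, t ∈ R ∧ t ∈ S ∧ G.Adj s t) :
    (I.filter (fun i => G.Adj s i)).card + (O.filter (fun o => G.Adj s o)).card ≤ c := by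
  have h := hGB V G R S I O s hs hI hO hD
  have h2 : T.card ≤ ((R ∩ S).filter (fun v => G.Adj s v)).card := by
    apply Finset.card_le_card
    intro t ht
    obtain ⟨h1, h2, h3⟩ := hT t ht
    simp [h1, h2, h3]
  omega

theorem te (hGA : GAStmt) (hGB : GBStmt) (hGT : GTStmt) : TEStmt := by
  intro V G R x a b hS ha hb hxa hxb hab r hr s hs r1 r2 r3 s1 s2 s3
  by_contra hJ
  have nxa := hxa.ne
  have nxb := hxb.ne
  have nab := hab.ne
  obtain ⟨S, hSd⟩ : ∃ S : Finset V, S = {x, a, b} := ⟨_, rfl⟩
  have hcoe : (↑S : Set V) = {x, a, b} := by simp [hSd]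
  have hrS : r ∈ R \ S := by simp [*]
  have hsS : s ∈ R \ S := by simp [*]
  obtain ⟨I, O, hU, hD, hrI, hIJ, hsep⟩ := hGT V G R S r hrS
  have hsO : s ∈ O := by
    have h1 : s ∈ I ∪ O := by rw [hU]; exact hsS
    rcases Finset.mem_union.1 h1 with h | h
    · exact absurd ((hIJ s hsS).1 h) (by rw [hcoe]; exact hJ)
    · exact h
  have hIs : I ⊆ R \ S := hU ▸ Finset.subset_union_left
  have hOs : O ⊆ R \ S := hU ▸ Finset.subset_union_right
  have hcard : I.card + O.card = (R \ S).card := by rw [← hU, Finset.card_union_of_disjoint hD]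
  have hc16 : (R ∩ S).card + (R \ S).card = 16 := by
    rw [Finset.card_inter_add_card_sdiff, hS.card]
  have hIp : 1 ≤ I.card := Finset.card_pos.2 ⟨r, hrI⟩
  have hOp : 1 ≤ O.card := Finset.card_pos.2 ⟨s, hsO⟩
  have hA := hGA V G R S I O hS.lf hIs hOs hsep
  rw [hSd, Finset.sum_insert (by simp [nxa, nxb]), Finset.sum_insert (by simp [nab]),
    Finset.sum_singleton] at hA
  have Sx : x ∈ S := by simp [hSd]
  have Sa : a ∈ S := by simp [hSd]
  have Sb : b ∈ S := by simp [hSd]
  have hle : ∀ s, (I.filter (fun i => G.Adj s i)).card ≤ I.card := fun s =>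
    Finset.card_filter_le _ _
  have hle' : ∀ s, (O.filter (fun i => G.Adj s i)).card ≤ O.card := fun s =>
    Finset.card_filter_le _ _
  have lx := hle x
  have la := hle a
  have lb := hle b
  have mx := hle' x
  have ma := hle' a
  have mb := hle' b
  have cx := cap hGB Sx hIs hOs hD (hS.deg x) {a, b} 4 (by rw [Finset.card_pair nab]) (by
    intro t ht
    simp only [Finset.mem_insert, Finset.mem_singleton] at ht
    rcases ht with rfl | rfl <;> exact ⟨by assumption, by assumption, by assumption⟩)
  by_cases hx : x ∈ R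
  · have ca := cap hGB Sa hIs hOs hD (hS.deg a) {x, b} 4 (by rw [Finset.card_pair nxb]) (by
      intro t ht
      simp only [Finset.mem_insert, Finset.mem_singleton] at ht
      rcases ht with rfl | rfl
      · exact ⟨hx, Sx, hxa.symm⟩
      · exact ⟨hb, Sb, hab⟩)
    have cb := cap hGB Sb hIs hOs hD (hS.deg b) {x, a} 4 (by rw [Finset.card_pair nxa]) (by
      intro t ht
      simp only [Finset.mem_insert, Finset.mem_singleton] at ht
      rcases ht with rfl | rfl
      · exact ⟨hx, Sx, hxb.symm⟩
      · exact ⟨ha, Sa, hab.symm⟩)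
    have hk : (R ∩ S).card = 3 := by
      have : R ∩ S = S := by
        rw [Finset.inter_eq_right, hSd]
        intro t ht
        simp only [Finset.mem_insert, Finset.mem_singleton] at ht
        rcases ht with rfl | rfl | rfl <;> assumption
      rw [this, hSd, Finset.card_insert_of_notMem (by simp [nxa, nxb]), Finset.card_pair nab]
    have hsum : I.card + O.card = 13 := by omega
    rcases Nat.lt_or_ge I.card 2 with h1 | h1
    · have e1 : I.card = 1 := by omega
      have e2 : O.card = 12 := by omega
      rw [e1] at lx la lb hA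
      rw [e2] at hA
      have := p1 cx lx
      have := p1 ca la
      have := p1 cb lb
      omega
    rcases Nat.lt_or_ge O.card 2 with h2 | h2
    · have e1 : O.card = 1 := by omega
      have e2 : I.card = 12 := by omega
      rw [e1] at mx ma mb hA
      rw [e2] at hA
      have := p1' cx mx
      have := p1' ca ma
      have := p1' cb mb
      omega
    · have h3 := big hsum h1 h2
      have := q4 cx
      have := q4 ca
      have := q4 cb
      omega
  · have ca := cap hGB Sa hIs hOs hD (hS.deg a) {b} 5 (by rw [Finset.card_singleton]) (by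
      intro t ht
      simp only [Finset.mem_singleton] at ht
      subst ht
      exact ⟨hb, Sb, hab⟩)
    have cb := cap hGB Sb hIs hOs hD (hS.deg b) {a} 5 (by rw [Finset.card_singleton]) (by
      intro t ht
      simp only [Finset.mem_singleton] at ht
      subst ht
      exact ⟨ha, Sa, hab.symm⟩)
    have hk : (R ∩ S).card = 2 := by
      have : R ∩ S = {a, b} := by
        ext t
        simp only [hSd, Finset.mem_inter, Finset.mem_insert, Finset.mem_singleton]
        constructor
        · rintro ⟨h1, rfl | rfl | rfl⟩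
          · exact absurd h1 hx
          · exact Or.inl rfl
          · exact Or.inr rfl
        · rintro (rfl | rfl)
          · exact ⟨ha, Or.inr (Or.inl rfl)⟩
          · exact ⟨hb, Or.inr (Or.inr rfl)⟩
      rw [this, Finset.card_pair nab]
    have hsum : I.card + O.card = 14 := by omega
    rcases Nat.lt_or_ge I.card 2 with h1 | h1
    · have e1 : I.card = 1 := by omega
      have e2 : O.card = 13 := by omega
      rw [e1] at lx la lb hA
      rw [e2] at hA
      have := p1 cx lx
      have := p1 ca la
      have := p1 cb lb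
      omega
    rcases Nat.lt_or_ge O.card 2 with h2 | h2
    · have e1 : O.card = 1 := by omega
      have e2 : I.card = 13 := by omega
      rw [e1] at mx ma mb hA
      rw [e2] at hA
      have := p1' cx mx
      have := p1' ca ma
      have := p1' cb mb
      omega
    · have h3 := big hsum h1 h2
      have := q4 cx
      have := q5 ca
      have := q5 cb
      omega

end Pool.Agent.H37.RCQ.TE
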